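import Pool.Agent.H.MP_ab521b_an.B

set_option autoImplicit false
open Set MeasureTheory Metric ComplexConjugate

namespace Pool.Agent.Results.MP_ab521b_an.Dim

abbrev Sph (n : ℕ) := sphere (0 : EuclideanSpace ℂ (Fin n)) 1

noncomputable def sigma (n : ℕ) : Measure (Sph n) :=
  ((volume : Measure (EuclideanSpace ℂ (Fin n))).toSphere univ)⁻¹ •
    (volume : Measure (EuclideanSpace ℂ (Fin n))).toSphere

noncomputable def E (n : ℕ) : Submodule ℂ C(Sph n, ℂ) :=
  Submodule.span ℂ {p | ∃ (k : Fin n) (α : Fin n → ℕ), α ≠ 0 ∧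
    ((∀ u, p u = conj (u.1 k) * ∏ j, u.1 j ^ α j) ∨ ∀ u, p u = u.1 k * ∏ j, conj (u.1 j) ^ α j)}

def PE (n : ℕ) : Set (Measure (Sph n)) :=
  {μ | IsProbabilityMeasure μ ∧ ∀ (s : Finset C(Sph n, ℂ)) (ε : ℝ), 0 < ε →
    ∃ p ∈ E n, ∀ g ∈ s, ‖∫ u, g u ∂μ - ∫ u, g u * p u ∂sigma n‖ < ε}

theorem result (n : ℕ) (hn : 2 ≤ n) :
    (∀ μ ∈ PE n, ∀ L : Submodule ℝ (EuclideanSpace ℂ (Fin n)), L ≠ ⊤ → μ {u | u.1 ∈ L} = 0) ∧
    ∀ P : Set (Measure (Sph n)), P.Nonempty → P ⊆ PE n →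
      IsGreatest {d | ∃ L : Submodule ℂ (EuclideanSpace ℂ (Fin n)), Module.finrank ℂ L = d ∧
        ∀ μ ∈ P, μ {u | u.1 ∈ L} = 0} (n - 1) ∧
      IsGreatest {d | ∃ L : Submodule ℝ (EuclideanSpace ℂ (Fin n)), Module.finrank ℝ L = d ∧
        ∀ μ ∈ P, μ {u | u.1 ∈ L} = 0} (2 * n - 1) := by
  have A : ∀ μ ∈ PE n, ∀ L : Submodule ℝ (EuclideanSpace ℂ (Fin n)), L ≠ ⊤ → μ {u | u.1 ∈ L} = 0 := by
    rintro μ ⟨h1, h2⟩
    refine H.MP_ab521b_an.main hn μ fun g hg => ?_
    have : ∀ p ∈ E n, ∫ u, g u * p u ∂H.MP_ab521b_an.sg n = 0 := fun p hp => by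
      induction hp using Submodule.span_induction with
      | mem p hp =>
        obtain ⟨k, α, -, h | h⟩ := hp <;> simp only [h]
        exacts [(hg k α).1, (hg k α).2]
      | zero => simp
      | add p q _ _ hp hq =>
        simp only [ContinuousMap.add_apply, mul_add]
        rw [integral_add (H.MP_ab521b_an.ci _ (by fun_prop)) (H.MP_ab521b_an.ci _ (by fun_prop)), hp, hq,
          add_zero]
      | smul a p _ hp =>
        simp only [ContinuousMap.smul_apply, smul_eq_mul, mul_left_comm _ a]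
        rw [integral_const_mul, hp, mul_zero]
    refine norm_le_zero_iff.1 (le_of_forall_pos_le_add fun ε hε => ?_)
    obtain ⟨p, p1, p2⟩ := h2 {g} ε hε
    simpa [sigma, integral_smul_measure, this p p1] using (p2 g (by simp)).le
  have f1 : Module.finrank ℂ (EuclideanSpace ℂ (Fin n)) = n := by simp
  have f2 : Module.finrank ℝ (EuclideanSpace ℂ (Fin n)) = 2 * n := by rw [finrank_real_of_complex, f1]
  refine ⟨A, fun P ⟨μ, hμ⟩ hP => ⟨⟨?_, ?_⟩, ?_, ?_⟩⟩
  · obtain ⟨v, hv⟩ := exists_linearIndependent_of_le_finrank (f1.ge.trans' (Nat.sub_le n 1))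
    have e := (finrank_span_eq_card hv).trans (Fintype.card_fin _)
    refine ⟨_, e, fun ν hν => A ν (hP hν) ((Submodule.span ℂ (range v)).restrictScalars ℝ) fun h => ?_⟩
    rw [(Submodule.restrictScalars_eq_top_iff _ _ _).1 h, finrank_top] at e
    omega
  · rintro _ ⟨L, rfl, h⟩
    have := (hP hμ).1
    have := Submodule.finrank_lt (s := L) (by rintro rfl; simpa using h μ hμ)
    omega
  · obtain ⟨v, hv⟩ := exists_linearIndependent_of_le_finrank (f2.ge.trans' (Nat.sub_le _ 1))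
    have e := (finrank_span_eq_card hv).trans (Fintype.card_fin _)
    refine ⟨_, e, fun ν hν => A ν (hP hν) _ fun h => ?_⟩
    rw [h, finrank_top] at e
    omega
  · rintro _ ⟨L, rfl, h⟩
    have := (hP hμ).1
    have := Submodule.finrank_lt (s := L) (by rintro rfl; simpa using h μ hμ)
    omega

end Pool.Agent.Results.MP_ab521b_an.Dim
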